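import Pool.Agent.H85.RcT
import Pool.Agent.H85.RcE

namespace Pool.Agent.Results.MP_352f7f_lc.Sep
open Pool.Agent.H85.Rc Function

theorem comp_schema {S sat asn val} (h : Comp S sat asn val) {φ} (hφ : IsD0 φ) :
    ∀ y ρ, asn y → (∀ i, val y i (ρ i)) → (sat φ y ↔ Sat S φ ρ) := by
  have tv : ∀ (v) (t : Tm), ¬ t.occ v → ∀ (ρ : ℕ → S.M) x,
      t.eval S (update ρ v x) = t.eval S ρ := fun v t ht ρ x =>
    t.eval_congr S fun i hi => update_of_ne (fun e : i = v => ht (e ▸ hi)) _ _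
  have cd : ∀ y y' (ρ : ℕ → S.M) v u, (∀ i, val y i (ρ i)) → val y' v u →
      (∀ j w, j ≠ v → (val y' j w ↔ val y j w)) → ∀ i, val y' i (update ρ v u i) := by
    intro y y' ρ v u h1 h2 h3 i
    by_cases e : i = v
    · subst e; simpa using h2
    · rw [update_of_ne e]; exact (h3 i _ e).2 (h1 i)
  induction hφ with
  | eq s t => exact h.eq s t
  | lt s t => exact h.lt s t
  | neg a ih => intro y ρ hy hρ; rw [h.neg _ _ a hy, ih y ρ hy hρ]; rfl
  | and a b ih ih' => intro y ρ hy hρ; rw [h.and _ _ _ a b hy, ih y ρ hy hρ, ih' y ρ hy hρ]; rfl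
  | ball v t ht a ih =>
    intro y ρ hy hρ
    rw [h.ball v t _ y ρ ht a hy hρ]
    simp only [Sat, sat_imp, Tm.eval, update_self, tv v t ht]
    constructor
    · intro H u hu
      obtain ⟨y', h1, h2, h3⟩ := h.upd y v u hy
      exact (ih y' _ h1 (cd y y' ρ v u hρ h2 h3)).1 (H y' u h1 h2 h3 hu)
    · intro H y' u h1 h2 h3 hu
      exact (ih y' _ h1 (cd y y' ρ v u hρ h2 h3)).2 (H u hu)
  | bex v t ht a ih =>
    intro y ρ hy hρ
    rw [h.bex v t _ y ρ ht a hy hρ]
    simp only [Sat, Tm.eval, update_self, tv v t ht]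
    constructor
    · rintro ⟨y', u, h1, h2, h3, hu, H⟩
      exact ⟨u, hu, (ih y' _ h1 (cd y y' ρ v u hρ h2 h3)).1 H⟩
    · rintro ⟨u, hu, H⟩
      obtain ⟨y', h1, h2, h3⟩ := h.upd y v u hy
      exact ⟨y', u, h1, h2, h3, hu, (ih y' _ h1 (cd y y' ρ v u hρ h2 h3)).2 H⟩

theorem num_occ (k i) : ¬ (num k).occ i := by
  induction k with
  | zero => exact id
  | succ k ih => simpa [num, Tm.occ] using ih

theorem num_nv (S : Str) (k ρ) : (num k).eval S ρ = nv S k :=
  (num k).eval_congr S fun i hi => (num_occ k i hi).elim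

theorem schema_of_truth {T} (h : Truth T) : TruthSchema T := by
  obtain ⟨code, Φ, A, V, hΦ, hA, hV, H⟩ := h
  let W : ℕ → Fm := fun i => .ex 4 (.and (.eq (.var 4) (num i)) (.ex 5 (.and (.eq (.var 5) (.var i)) V)))
  refine ⟨.ex 3 (.and A (.and (W 0) (.and (W 1) Φ))), fun φ hφ hf => ⟨code φ, fun S hS ρ => ?_⟩⟩
  have C := H S hS
  simp only [sat_imp, sat_iff, Sat, Tm.eval, num_nv]
  intro h2
  have e1 : ∀ y, Sat S A (update ρ 3 y) ↔ ap S A y y y y := fun y =>
    sat_congr S A fun k hk => by rw [hA k hk]; simp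
  have e2 : ∀ y, Sat S Φ (update ρ 3 y) ↔ ap S Φ (nv S (code φ)) y y y := fun y =>
    sat_congr S Φ fun k hk => by rcases hΦ k hk with rfl | rfl <;> simp [h2]
  have e3 : ∀ y i, i < 2 → (Sat S (W i) (update ρ 3 y) ↔ ap S V y y (nv S i) (ρ i)) := by
    intro y i hi
    simp only [W, Sat, Tm.eval, num_nv, update_self, exists_eq_left,
      update_of_ne (show i ≠ 5 by omega), update_of_ne (show i ≠ 4 by omega),
      update_of_ne (show i ≠ 3 by omega)]
    exact sat_congr S V fun k hk => by rcases hV k hk with rfl | rfl | rfl <;> simp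
  simp only [e1, e2, e3 _ 0 (by omega), e3 _ 1 (by omega)]
  have key : ∀ y, ap S A y y y y → ap S V y y (nv S 0) (ρ 0) → ap S V y y (nv S 1) (ρ 1) →
      (ap S Φ (nv S (code φ)) y y y ↔ Sat S φ ρ) := by
    intro y a b c
    choose τ hτ using fun i => C.tot y i a
    rw [show ap S Φ (nv S (code φ)) y y y ↔ Sat S φ τ from comp_schema C hφ y τ a fun i => (hτ i).1]
    refine sat_congr S φ fun i hi => ?_
    have := hf i hi
    have : i = 0 ∨ i = 1 := by omega
    rcases this with rfl | rfl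
    · exact ((hτ 0).2 _ b).symm
    · exact ((hτ 1).2 _ c).symm
  constructor
  · rintro ⟨y, a, b, c, d⟩; exact (key y a b c).1 d
  · intro d
    obtain ⟨y0, a0⟩ := C.ex
    obtain ⟨y1, a1, b1, -⟩ := C.upd y0 0 (ρ 0) a0
    obtain ⟨y2, a2, b2, c2⟩ := C.upd y1 1 (ρ 1) a1
    have b3 := (c2 0 _ (by decide)).2 b1
    exact ⟨y2, a2, b3, b2, (key y2 a2 b3 b2).2 d⟩

def clo (φ : Fm) : ℕ → Fm
  | 0 => φ
  | n + 1 => .all n (clo φ n)

theorem clo_free (φ n i) : (clo φ n).free i → φ.free i ∧ n ≤ i := by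
  induction n with
  | zero => exact fun h => ⟨h, Nat.zero_le _⟩
  | succ n ih => exact fun h => ⟨(ih h.2).1, by have := h.1; have := (ih h.2).2; omega⟩

theorem clo_models (S φ n) : Models S (clo φ n) ↔ Models S φ := by
  induction n with
  | zero => rfl
  | succ n ih =>
    rw [← ih]
    exact ⟨fun h ρ => by simpa using h ρ (ρ n), fun h ρ x => h _⟩

theorem result (c : Bool) : ∃ T : Set Fm, InTQ c T ∧ NRestr T ∧
    ¬ MRDP T ∧ ¬ Truth T ∧ ¬ TruthSchema T ∧ ¬ NRec T :=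
  ⟨Th c, ⟨th_theory c, ⟨M0 c, fun _ h => h.2⟩, fun φ hφ S hS => by
      obtain ⟨K, hK⟩ := φ.free_bdd
      exact (clo_models S φ K).1 (hS _ ⟨fun i hi => by
        have := clo_free φ K i hi; have := hK i this.1; omega,
        (clo_models _ φ K).2 (md_Q c _ φ hφ)⟩)⟩,
    th_nrestr c, th_not_mrdp c, fun h => th_not_truth c (schema_of_truth h), th_not_truth c,
    th_not_nrec c⟩

end Pool.Agent.Results.MP_352f7f_lc.Sep
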